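import Mathlib

set_option linter.unusedSectionVars false
set_option linter.unusedVariables false

open Finset

namespace Pool.Agent.Results.MP_9978f8_co.Main

/-- The neighbourhood `N(W)` of a vertex set `W` in the triple system `F`. -/
def nbhd {V : Type} [DecidableEq V] (F : Finset (Finset V)) (W : Set V) : Set V :=
  {z | z ∉ W ∧ ∃ x ∈ W, ∃ y ∈ W, x ≠ y ∧ ({x, y, z} : Finset V) ∈ F}

/-- The closure of `W`: the intersection of all `U` containing `W` with empty neighbourhood. -/
def cl {V : Type} [DecidableEq V] (F : Finset (Finset V)) (W : Set V) : Set V :=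
  ⋂₀ {U : Set V | W ⊆ U ∧ nbhd F U = ∅}

/-- Linear triple systems: 3-element sets, two distinct ones share at most one vertex. -/
structure IsLinearTripleSystem {V : Type} [DecidableEq V] (F : Finset (Finset V)) : Prop where
  triple : ∀ e ∈ F, e.card = 3
  linear : ∀ e ∈ F, ∀ f ∈ F, e ≠ f → (e ∩ f).card ≤ 1

/-- Weakly spreading: every subfamily with at least two triples has a vertex set whose closure
is everything. -/
def IsWeaklySpreading {V : Type} [DecidableEq V] (F : Finset (Finset V)) : Prop :=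
  ∀ F' ⊆ F, 2 ≤ F'.card → cl F (⋃ e ∈ F', (e : Set V)) = Set.univ

/-- The minimum size of a weakly spreading linear triple system with at least two triples on
`n` vertices (`⊤` if there is none). -/
noncomputable def xiWsp (n : ℕ) : ℕ∞ :=
  ⨅ F ∈ {F : Finset (Finset (Fin n)) |
      IsLinearTripleSystem F ∧ 2 ≤ F.card ∧ IsWeaklySpreading F}, (F.card : ℕ∞)

section

variable {V : Type} [Fintype V] [DecidableEq V] {F : Finset (Finset V)}

/-- triples through a vertex -/
def star (F : Finset (Finset V)) (v : V) : Finset (Finset V) := F.filter (fun e => v ∈ e)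

lemma mem_star {v : V} {e : Finset V} : e ∈ star F v ↔ e ∈ F ∧ v ∈ e := by
  simp [star]

lemma uniq (hL : IsLinearTripleSystem F) {e f : Finset V} (he : e ∈ F) (hf : f ∈ F)
    {x y : V} (hxy : x ≠ y) (hxe : x ∈ e) (hye : y ∈ e) (hxf : x ∈ f) (hyf : y ∈ f) : e = f := by
  by_contra hne
  have h1 := hL.linear e he f hf hne
  have h2 : ({x, y} : Finset V) ⊆ e ∩ f := by
    intro z hz
    simp only [mem_insert, mem_singleton] at hz
    rcases hz with rfl | rfl
    · exact mem_inter.2 ⟨hxe, hxf⟩
    · exact mem_inter.2 ⟨hye, hyf⟩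
  have h3 := card_le_card h2
  rw [card_pair hxy] at h3
  omega

lemma nbhd_nonempty (hS : IsWeaklySpreading F) {e f : Finset V} (he : e ∈ F) (hf : f ∈ F)
    (hne : e ≠ f) (W : Set V) (hW : W ≠ Set.univ) (hew : (e : Set V) ⊆ W) (hfw : (f : Set V) ⊆ W) :
    (nbhd F W).Nonempty := by
  by_contra hem
  rw [Set.not_nonempty_iff_eq_empty] at hem
  have h1 := hS {e, f} (by
    intro g hg
    simp only [mem_insert, mem_singleton] at hg
    rcases hg with rfl | rfl <;> assumption) (by rw [card_pair hne])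
  apply hW
  rw [← Set.univ_subset_iff, ← h1]
  apply Set.sInter_subset_of_mem
  refine ⟨?_, hem⟩
  intro z hz
  simp only [mem_insert, mem_singleton, Set.iUnion_iUnion_eq_or_left, Set.iUnion_iUnion_eq_left,
    Set.mem_union] at hz
  rcases hz with hz | hz
  · exact hew hz
  · exact hfw hz

/-- the linking triple -/
lemma link (hL : IsLinearTripleSystem F) (hS : IsWeaklySpreading F) (hn : 6 < Fintype.card V)
    {e f : Finset V} (he : e ∈ F) (hf : f ∈ F) (hne : e ≠ f) :
    ∃ g ∈ F, ∃ x ∈ g, ∃ y ∈ g, x ∈ e ∧ x ∉ f ∧ y ∈ f ∧ y ∉ e := by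
  have hW : ((e ∪ f : Finset V) : Set V) ≠ Set.univ := by
    intro h
    have h1 : (e ∪ f) = univ := by
      apply Finset.coe_injective; rw [h]; simp
    have h2 : (e ∪ f).card = Fintype.card V := by rw [h1]; rfl
    have h3 := card_union_le e f
    rw [hL.triple e he, hL.triple f hf] at h3
    omega
  obtain ⟨z, hz, x, hx, y, hy, hxy, hg⟩ := nbhd_nonempty hS he hf hne _ hW
    (by intro a ha; simp only [coe_union, Set.mem_union]; exact Or.inl ha)
    (by intro a ha; simp only [coe_union, Set.mem_union]; exact Or.inr ha)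
  simp only [coe_union, Set.mem_union, mem_coe, not_or] at hz hx hy
  have hzg : z ∈ ({x, y, z} : Finset V) := by simp
  have hxg : x ∈ ({x, y, z} : Finset V) := by simp
  have hyg : y ∈ ({x, y, z} : Finset V) := by simp
  have hne' : ∀ k ∈ F, z ∉ k → ¬ (x ∈ k ∧ y ∈ k) := by
    intro k hk hzk ⟨hxk, hyk⟩
    have := uniq hL hg hk hxy hxg hyg hxk hyk
    exact hzk (this ▸ hzg)
  have h1 := hne' e he hz.1
  have h2 := hne' f hf hz.2
  refine ⟨_, hg, ?_⟩
  by_cases hxe : x ∈ e
  · have hye : y ∉ e := fun h => h1 ⟨hxe, h⟩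
    have hyf : y ∈ f := hy.resolve_left hye
    have hxf : x ∉ f := fun h => h2 ⟨h, hyf⟩
    exact ⟨x, hxg, y, hyg, hxe, hxf, hyf, hye⟩
  · have hxf : x ∈ f := hx.resolve_left hxe
    have hyf : y ∉ f := fun h => h2 ⟨hxf, h⟩
    have hye : y ∈ e := hy.resolve_right hyf
    exact ⟨y, hyg, x, hxg, hye, hyf, hxf, hxe⟩

/-- every vertex lies in a triple -/
lemma star_nonempty (hL : IsLinearTripleSystem F) (hS : IsWeaklySpreading F) (h2 : 2 ≤ F.card)
    (v : V) : (star F v).Nonempty := by
  by_contra hem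
  rw [not_nonempty_iff_eq_empty] at hem
  have hno : ∀ e ∈ F, v ∉ e := by
    intro e he hv
    have : e ∈ star F v := mem_star.2 ⟨he, hv⟩
    rw [hem] at this
    simp at this
  obtain ⟨e, he, f, hf, hne⟩ := one_lt_card.1 (by omega : 1 < F.card)
  obtain ⟨z, hz, x, hx, y, hy, hxy, hg⟩ := nbhd_nonempty hS he hf hne ({v}ᶜ : Set V)
    (by intro h; have : v ∈ ({v}ᶜ : Set V) := by rw [h]; trivial
        simp at this)
    (by intro a ha hav; simp only [Set.mem_singleton_iff] at hav; exact hno e he (hav ▸ ha))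
    (by intro a ha hav; simp only [Set.mem_singleton_iff] at hav; exact hno f hf (hav ▸ ha))
  simp only [Set.mem_compl_iff, Set.mem_singleton_iff, not_not] at hz
  exact hno _ hg (by simp [hz])

/-- the triple through two vertices (junk value if there is none) -/
noncomputable def tr (F : Finset (Finset V)) (v x : V) : Finset V :=
  if h : ∃ e ∈ F, v ∈ e ∧ x ∈ e then h.choose else ∅

lemma tr_eq (hL : IsLinearTripleSystem F) {v x : V} (hvx : v ≠ x) {e : Finset V} (he : e ∈ F)
    (hv : v ∈ e) (hx : x ∈ e) : tr F v x = e := by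
  have h : ∃ e ∈ F, v ∈ e ∧ x ∈ e := ⟨e, he, hv, hx⟩
  rw [tr, dif_pos h]
  obtain ⟨h1, h2, h3⟩ := h.choose_spec
  exact uniq hL h1 he hvx h2 h3 hv hx

/-- ordered pairs of distinct vertices covered by the triples of `G` -/
def cov (G : Finset (Finset V)) : Finset (V × V) := G.biUnion (fun g => g.offDiag)

lemma card_cov_le (hL : IsLinearTripleSystem F) {G : Finset (Finset V)} (hG : G ⊆ F) :
    (cov G).card ≤ 6 * G.card := by
  refine (card_biUnion_le).trans ?_
  have : ∀ g ∈ G, g.offDiag.card ≤ 6 := by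
    intro g hg
    rw [offDiag_card, hL.triple g (hG hg)]
  calc ∑ g ∈ G, g.offDiag.card ≤ ∑ _g ∈ G, 6 := sum_le_sum this
    _ = 6 * G.card := by rw [sum_const, smul_eq_mul, mul_comm]

/-- Key counting: if all pairs from `A` (triples through `v`) are linked through `G` -/
lemma pairs_le (hL : IsLinearTripleSystem F) {v : V} {A G : Finset (Finset V)}
    (hA : A ⊆ star F v)
    (h : ∀ e ∈ A, ∀ f ∈ A, e ≠ f → ∃ g ∈ G, ∃ x ∈ g, ∃ y ∈ g, x ∈ e ∧ x ∉ f ∧ y ∈ f ∧ y ∉ e) :
    A.offDiag.card ≤ (cov G).card := by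
  have hsub : A.offDiag ⊆ (cov G).image (fun p => (tr F v p.1, tr F v p.2)) := by
    intro p hp
    obtain ⟨e, f⟩ := p
    rw [mem_offDiag] at hp
    obtain ⟨he, hf, hne⟩ := hp
    obtain ⟨g, hg, x, hx, y, hy, hxe, hxf, hyf, hye⟩ := h e he f hf hne
    obtain ⟨heF, hve⟩ := mem_star.1 (hA he)
    obtain ⟨hfF, hvf⟩ := mem_star.1 (hA hf)
    refine mem_image.2 ⟨(x, y), ?_, ?_⟩
    · refine mem_biUnion.2 ⟨g, hg, mem_offDiag.2 ⟨hx, hy, ?_⟩⟩
      intro hxy
      have hxy' : x = y := hxy
      exact hye (hxy' ▸ hxe)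
    · have h1 : v ≠ x := by rintro rfl; exact hxf hvf
      have h2 : v ≠ y := by rintro rfl; exact hye hve
      simp only [Prod.mk.injEq]
      exact ⟨tr_eq hL h1 heF hve hxe, tr_eq hL h2 hfF hvf hyf⟩
  exact (card_le_card hsub).trans card_image_le

lemma card_sub_one_sq {A G : Finset (Finset V)} {c : ℕ} (hc : 1 ≤ c)
    (h : A.offDiag.card ≤ 6 * c) : ((A.card : ℝ) - 1) ^ 2 ≤ 6 * c := by
  rw [offDiag_card] at h
  have h2 : (A.card : ℝ) * A.card - A.card ≤ 6 * c := by
    have : A.card ≤ A.card * A.card := Nat.le_mul_self _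
    have h3 : ((A.card * A.card - A.card : ℕ) : ℝ) ≤ ((6 * c : ℕ) : ℝ) := by exact_mod_cast h
    rw [Nat.cast_sub this] at h3
    push_cast at h3
    linarith
  have hc' : (1 : ℝ) ≤ c := by exact_mod_cast hc
  rcases Nat.eq_zero_or_pos A.card with h0 | h0
  · rw [h0]; push_cast; nlinarith
  · have : (1 : ℝ) ≤ A.card := by exact_mod_cast h0
    nlinarith

lemma sq_deg_le (hL : IsLinearTripleSystem F) (hS : IsWeaklySpreading F) (h2 : 2 ≤ F.card)
    (hn : 6 < Fintype.card V) (v : V) :
    (((star F v).card : ℝ) - 1) ^ 2 ≤ 6 * F.card := by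
  have h1 := (pairs_le hL (v := v) (A := star F v) (G := F) (subset_refl _) (by
    intro e he f hf hne
    exact link hL hS hn (mem_star.1 he).1 (mem_star.1 hf).1 hne)).trans
      (card_cov_le hL (subset_refl F))
  exact card_sub_one_sq (G := F) (by omega) h1

/-- degree minus one -/
noncomputable def dm (F : Finset (Finset V)) (v : V) : ℝ := ((star F v).card : ℝ) - 1

lemma dm_nonneg (hL : IsLinearTripleSystem F) (hS : IsWeaklySpreading F) (h2 : 2 ≤ F.card)
    (v : V) : 0 ≤ dm F v := by
  have := (star_nonempty hL hS h2 v).card_pos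
  have h : (1 : ℝ) ≤ (star F v).card := by exact_mod_cast this
  unfold dm; linarith

lemma card_star_erase {v : V} {e : Finset V} (he : e ∈ star F v) :
    (((star F v).erase e).card : ℝ) = dm F v := by
  rw [card_erase_of_mem he]
  have := card_pos.2 ⟨e, he⟩
  rw [Nat.cast_sub (by omega)]
  simp [dm]

/-- the local degree inequality -/
lemma local_ineq (hL : IsLinearTripleSystem F) (hS : IsWeaklySpreading F) (h2 : 2 ≤ F.card)
    (hn : 6 < Fintype.card V) {e : Finset V} (he : e ∈ F) {a : V} (ha : a ∈ e) :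
    dm F a ≤ 2 * ∑ x ∈ e.erase a, dm F x := by
  have hsub : (star F a).erase e ⊆ (e.erase a).biUnion (fun x =>
      ((star F x).erase e).biUnion (fun g => (g.erase x).image (fun y => tr F a y))) := by
    intro f hf
    obtain ⟨hfe, hfa⟩ := mem_erase.1 hf
    obtain ⟨hfF, haf⟩ := mem_star.1 hfa
    obtain ⟨g, hg, x, hx, y, hy, hxe, hxf, hyf, hye⟩ := link hL hS hn he hfF (Ne.symm hfe)
    refine mem_biUnion.2 ⟨x, mem_erase.2 ⟨?_, hxe⟩, mem_biUnion.2 ⟨g, mem_erase.2 ⟨?_,
      mem_star.2 ⟨hg, hx⟩⟩, mem_image.2 ⟨y, mem_erase.2 ⟨?_, hy⟩, ?_⟩⟩⟩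
    · rintro rfl; exact hxf haf
    · rintro rfl; exact hye hy
    · rintro rfl; exact hxf hyf
    · exact tr_eq hL (by rintro rfl; exact hye ha) hfF haf hyf
  have h1 : (((star F a).erase e).card : ℝ) ≤ ∑ x ∈ e.erase a, 2 * dm F x := by
    calc (((star F a).erase e).card : ℝ) ≤ (((e.erase a).biUnion (fun x =>
      ((star F x).erase e).biUnion (fun g => (g.erase x).image (fun y => tr F a y)))).card : ℝ) := by
          exact_mod_cast card_le_card hsub
      _ ≤ ((∑ x ∈ e.erase a, ((((star F x).erase e).biUnion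
            (fun g => (g.erase x).image (fun y => tr F a y))).card) : ℕ) : ℝ) := by
          exact_mod_cast card_biUnion_le
      _ ≤ ((∑ x ∈ e.erase a, ((star F x).erase e).card * 2 : ℕ) : ℝ) := by
          have : ∀ x ∈ e.erase a, (((star F x).erase e).biUnion
            (fun g => (g.erase x).image (fun y => tr F a y))).card
              ≤ ((star F x).erase e).card * 2 := by
            intro x hx
            refine card_biUnion_le.trans ?_
            rw [← smul_eq_mul, ← sum_const]
            refine sum_le_sum (fun g hg => ?_)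
            have hg' := mem_star.1 (mem_erase.1 hg).2
            refine card_image_le.trans ?_
            rw [card_erase_of_mem hg'.2, hL.triple g hg'.1]
          exact_mod_cast sum_le_sum this
      _ = ∑ x ∈ e.erase a, 2 * dm F x := by
          push_cast
          refine sum_congr rfl (fun x hx => ?_)
          rw [card_star_erase (mem_star.2 ⟨he, (mem_erase.1 hx).2⟩)]
          ring
  rw [card_star_erase (mem_star.2 ⟨he, ha⟩)] at h1
  rwa [← mul_sum] at h1

/-- all triples are within two steps of `e` -/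
lemma global_ineq (hL : IsLinearTripleSystem F) (hS : IsWeaklySpreading F) (h2 : 2 ≤ F.card)
    (hn : 6 < Fintype.card V) {e : Finset V} (he : e ∈ F) {D : ℝ} (hD : ∀ v, dm F v ≤ D) :
    (F.card : ℝ) - 1 ≤ (∑ x ∈ e, dm F x) * (2 * D) := by
  have hD0 : 0 ≤ D := by
    obtain ⟨v, hv⟩ : e.Nonempty := card_pos.1 (by rw [hL.triple e he]; norm_num)
    exact (dm_nonneg hL hS h2 v).trans (hD v)
  have hsub : F.erase e ⊆ e.biUnion (fun x => ((star F x).erase e).biUnion
      (fun g => (g.erase x).biUnion (fun y => (star F y).erase g))) := by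
    intro f hf
    obtain ⟨hfe, hfF⟩ := mem_erase.1 hf
    obtain ⟨g, hg, x, hx, y, hy, hxe, hxf, hyf, hye⟩ := link hL hS hn he hfF (Ne.symm hfe)
    refine mem_biUnion.2 ⟨x, hxe, mem_biUnion.2 ⟨g, mem_erase.2 ⟨?_, mem_star.2 ⟨hg, hx⟩⟩,
      mem_biUnion.2 ⟨y, mem_erase.2 ⟨?_, hy⟩, mem_erase.2 ⟨?_, mem_star.2 ⟨hfF, hyf⟩⟩⟩⟩⟩
    · rintro rfl; exact hye hy
    · rintro rfl; exact hxf hyf
    · rintro rfl; exact hxf hx
  have h1 : ((F.erase e).card : ℝ) ≤ ∑ x ∈ e, dm F x * (2 * D) := by
    calc ((F.erase e).card : ℝ) ≤ ((e.biUnion (fun x => ((star F x).erase e).biUnion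
      (fun g => (g.erase x).biUnion (fun y => (star F y).erase g)))).card : ℝ) := by
          exact_mod_cast card_le_card hsub
      _ ≤ ((∑ x ∈ e, (((star F x).erase e).biUnion
            (fun g => (g.erase x).biUnion (fun y => (star F y).erase g))).card : ℕ) : ℝ) := by
          exact_mod_cast card_biUnion_le
      _ = ∑ x ∈ e, ((((star F x).erase e).biUnion
            (fun g => (g.erase x).biUnion (fun y => (star F y).erase g))).card : ℝ) := by
          push_cast; rfl
      _ ≤ ∑ x ∈ e, dm F x * (2 * D) := by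
          refine sum_le_sum (fun x hx => ?_)
          calc ((((star F x).erase e).biUnion
            (fun g => (g.erase x).biUnion (fun y => (star F y).erase g))).card : ℝ)
              ≤ ((∑ g ∈ (star F x).erase e,
                  ((g.erase x).biUnion (fun y => (star F y).erase g)).card : ℕ) : ℝ) := by
                exact_mod_cast card_biUnion_le
            _ = ∑ g ∈ (star F x).erase e,
                  (((g.erase x).biUnion (fun y => (star F y).erase g)).card : ℝ) := by
                push_cast; rfl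
            _ ≤ ∑ g ∈ (star F x).erase e, (2 * D) := by
                refine sum_le_sum (fun g hg => ?_)
                have hg' := mem_star.1 (mem_erase.1 hg).2
                calc (((g.erase x).biUnion (fun y => (star F y).erase g)).card : ℝ)
                    ≤ ((∑ y ∈ g.erase x, ((star F y).erase g).card : ℕ) : ℝ) := by
                      exact_mod_cast card_biUnion_le
                  _ = ∑ y ∈ g.erase x, (((star F y).erase g).card : ℝ) := by push_cast; rfl
                  _ ≤ ∑ y ∈ g.erase x, D := by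
                      refine sum_le_sum (fun y hy => ?_)
                      rw [card_star_erase (mem_star.2 ⟨hg'.1, (mem_erase.1 hy).2⟩)]
                      exact hD y
                  _ = 2 * D := by
                      rw [sum_const, card_erase_of_mem hg'.2, hL.triple g hg'.1]
                      simp
            _ = dm F x * (2 * D) := by
                rw [sum_const, nsmul_eq_mul, card_star_erase (mem_star.2 ⟨he, hx⟩)]
  rw [card_erase_of_mem he, ← sum_mul, Nat.cast_sub (by omega)] at h1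
  simpa using h1

lemma mem_three {e : Finset V} (h3 : e.card = 3) {a b c p : V} (ha : a ∈ e) (hb : b ∈ e)
    (hc : c ∈ e) (hab : a ≠ b) (hac : a ≠ c) (hbc : b ≠ c) (hp : p ∈ e) :
    p = a ∨ p = b ∨ p = c := by
  have hsub : ({a, b, c} : Finset V) ⊆ e := by
    intro z hz
    simp only [mem_insert, mem_singleton] at hz
    rcases hz with rfl | rfl | rfl <;> assumption
  have hcard : ({a, b, c} : Finset V).card = 3 := by
    rw [card_insert_of_notMem, card_pair hbc]
    simp [hab, hac]
  have := eq_of_subset_of_card_le hsub (by rw [h3, hcard])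
  rw [← this] at hp
  simpa using hp

/-- links between simple triples are not simple -/
lemma simple_link (hL : IsLinearTripleSystem F) (hS : IsWeaklySpreading F)
    (hn : 6 < Fintype.card V) {e f : Finset V} (he : e ∈ F) (hf : f ∈ F) (hne : e ≠ f)
    {x v v' : V} (hxe : x ∈ e) (hxf : x ∈ f) (hve : v ∈ e) (hvf : v' ∈ f)
    (hv : (star F v).card = 1) (hv' : (star F v').card = 1)
    (hvx : v ≠ x) (hvx' : v' ≠ x) :
    ∃ g ∈ F, (∀ w ∈ g, (star F w).card ≠ 1) ∧
      ∃ a ∈ g, ∃ b ∈ g, a ∈ e ∧ a ∉ f ∧ b ∈ f ∧ b ∉ e := by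
  obtain ⟨g, hg, a, hag, b, hbg, hae, haf, hbf, hbe⟩ := link hL hS hn he hf hne
  refine ⟨g, hg, ?_, a, hag, b, hbg, hae, haf, hbf, hbe⟩
  intro w hwg hw
  have one : ∀ {u : V}, (star F u).card = 1 → ∀ {k l : Finset V}, k ∈ F → l ∈ F → u ∈ k →
      u ∈ l → k = l := by
    intro u hu k l hk hl huk hul
    exact card_le_one.1 hu.le k (mem_star.2 ⟨hk, huk⟩) l (mem_star.2 ⟨hl, hul⟩)
  have hge : g ≠ e := by rintro rfl; exact hbe hbg
  have hgf : g ≠ f := by rintro rfl; exact haf hag
  have hvg : v ∉ g := fun h => hge (one hv hg he h hve)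
  have hvg' : v' ∉ g := fun h => hgf (one hv' hg hf h hvf)
  have hwe : w ∉ e := fun h => hge (one hw hg he hwg h)
  have hwf : w ∉ f := fun h => hgf (one hw hg hf hwg h)
  have hxa : x ≠ a := by rintro rfl; exact haf hxf
  have hxb : x ≠ b := by rintro rfl; exact hbe hxe
  have hab : a ≠ b := by rintro rfl; exact hbe hae
  have hva : v ≠ a := by rintro rfl; exact hvg hag
  have hvb : v' ≠ b := by rintro rfl; exact hvg' hbg
  have hwa : w ≠ a := by rintro rfl; exact hwe hae
  have hwb : w ≠ b := by rintro rfl; exact hwf hbf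
  have hcard : (e ∪ f ∪ g).card ≤ 6 := by
    have h1 : (e ∪ f).card + (e ∩ f).card = e.card + f.card := card_union_add_card_inter e f
    have h2 : (e ∪ f ∪ g).card + ((e ∪ f) ∩ g).card = (e ∪ f).card + g.card :=
      card_union_add_card_inter _ _
    have h3 : 1 ≤ (e ∩ f).card := card_pos.2 ⟨x, mem_inter.2 ⟨hxe, hxf⟩⟩
    have h4 : 2 ≤ ((e ∪ f) ∩ g).card := by
      rw [← card_pair hab]
      apply card_le_card
      intro z hz
      simp only [mem_insert, mem_singleton] at hz
      rcases hz with rfl | rfl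
      · exact mem_inter.2 ⟨mem_union_left _ hae, hag⟩
      · exact mem_inter.2 ⟨mem_union_right _ hbf, hbg⟩
    rw [hL.triple e he, hL.triple f hf] at h1
    rw [hL.triple g hg] at h2
    omega
  have hW : ((e ∪ f ∪ g : Finset V) : Set V) ≠ Set.univ := by
    intro h
    have h1 : (e ∪ f ∪ g) = univ := by
      apply Finset.coe_injective; rw [h]; simp
    have h2 : (e ∪ f ∪ g).card = Fintype.card V := by rw [h1]; rfl
    omega
  obtain ⟨z, hz, p, hp, q, hq, hpq, hT⟩ := nbhd_nonempty hS he hf hne _ hW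
    (by intro c hc; simp only [coe_union, Set.mem_union]; exact Or.inl (Or.inl hc))
    (by intro c hc; simp only [coe_union, Set.mem_union]; exact Or.inl (Or.inr hc))
  simp only [coe_union, Set.mem_union, mem_coe, not_or] at hz hp hq
  obtain ⟨⟨hze, hzf⟩, hzg⟩ := hz
  have hzT : z ∈ ({p, q, z} : Finset V) := by simp
  have hpT : p ∈ ({p, q, z} : Finset V) := by simp
  have hqT : q ∈ ({p, q, z} : Finset V) := by simp
  have key : ∀ u ∈ ({p, q, z} : Finset V), (u ∈ e ∨ u ∈ f) ∨ u ∈ g → u = x ∨ u = a ∨ u = b := by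
    intro u huT hu
    rcases hu with (hu | hu) | hu
    · rcases mem_three (hL.triple e he) hve hxe hae hvx hva hxa hu with h | h | h
      · exfalso; subst h
        have := one hv hT he huT hu
        exact hze (this ▸ hzT)
      · exact Or.inl h
      · exact Or.inr (Or.inl h)
    · rcases mem_three (hL.triple f hf) hvf hxf hbf hvx' hvb hxb hu with h | h | h
      · exfalso; subst h
        have := one hv' hT hf huT hu
        exact hzf (this ▸ hzT)
      · exact Or.inl h
      · exact Or.inr (Or.inr h)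
    · rcases mem_three (hL.triple g hg) hwg hag hbg hwa hwb hab hu with h | h | h
      · exfalso; subst h
        have := one hw hT hg huT hu
        exact hzg (this ▸ hzT)
      · exact Or.inr (Or.inl h)
      · exact Or.inr (Or.inr h)
  have fin : ∀ k ∈ F, z ∉ k → p ∈ k → q ∈ k → False := by
    intro k hk hzk hpk hqk
    have := uniq hL hT hk hpq hpT hqT hpk hqk
    exact hzk (this ▸ hzT)
  rcases key p hpT hp with h1 | h1 | h1 <;> rcases key q hqT hq with h2 | h2 | h2
  · exact hpq (h1.trans h2.symm)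
  · exact fin e he hze (h1 ▸ hxe) (h2 ▸ hae)
  · exact fin f hf hzf (h1 ▸ hxf) (h2 ▸ hbf)
  · exact fin e he hze (h1 ▸ hae) (h2 ▸ hxe)
  · exact hpq (h1.trans h2.symm)
  · exact fin g hg hzg (h1 ▸ hag) (h2 ▸ hbg)
  · exact fin f hf hzf (h1 ▸ hbf) (h2 ▸ hxf)
  · exact fin g hg hzg (h1 ▸ hbg) (h2 ▸ hag)
  · exact hpq (h1.trans h2.symm)

lemma sum_inter (A : Finset (Finset V)) (T : Finset V) :
    ∑ v ∈ T, (A.filter (fun e => v ∈ e)).card = ∑ e ∈ A, (e ∩ T).card := by
  simp_rw [card_filter]
  rw [sum_comm]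
  refine sum_congr rfl (fun e _ => ?_)
  rw [← sum_filter, ← card_eq_sum_ones]
  congr 1
  ext z
  simp [and_comm]

/-- numerical endgame -/
lemma endgame {r N n h R S B : ℝ} (hr2 : r ^ 2 = N) (hr : 10 ^ 7 ≤ r) (hh : h ≤ 108 * r)
    (hlt : n > (99999 / 100000 : ℝ) * N)
    (hL1 : 2 * n - 2 * h - N ≤ S) (hR : R = N - S) (hB0 : 0 ≤ B) (hB2 : B ^ 2 = 6 * (R + 1))
    (htot : 2 * S ≤ h * (1 + B)) : False := by
  have hr0 : 0 < r := by linarith
  have hRle : R ≤ 2 / 100000 * r ^ 2 + 216 * r := by
    rw [hr2]; linarith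
  have hSge : (99998 / 100000 : ℝ) * r ^ 2 - 216 * r ≤ S := by
    rw [hr2]; linarith
  have hmul : h * (1 + B) ≤ 108 * r * (1 + B) := by
    apply mul_le_mul_of_nonneg_right hh; linarith
  have h10 : 2 * ((99998 / 100000 : ℝ) * r - 216) ≤ 108 * (1 + B) := by
    have h11 : (2 * ((99998 / 100000 : ℝ) * r - 216)) * r ≤ (108 * (1 + B)) * r := by
      have e1 : (2 * ((99998 / 100000 : ℝ) * r - 216)) * r
          = 2 * ((99998 / 100000 : ℝ) * r ^ 2 - 216 * r) := by ring
      have e2 : (108 * (1 + B)) * r = 108 * r * (1 + B) := by ring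
      rw [e1, e2]; linarith
    exact le_of_mul_le_mul_right h11 hr0
  have h12 : (99998 / 100000 : ℝ) * r - 270 ≤ 54 * B := by linarith
  have h13 : ((99998 / 100000 : ℝ) * r - 270) ^ 2 ≤ (54 * B) ^ 2 := by
    apply pow_le_pow_left₀ _ h12
    linarith
  have h14 : (54 * B) ^ 2 = 2916 * (6 * (R + 1)) := by rw [mul_pow, hB2]; norm_num
  rw [h14] at h13
  have h15 : ((99998 / 100000 : ℝ) * r - 270) ^ 2 ≤
      2916 * (6 * (2 / 100000 * r ^ 2 + 216 * r + 1)) := by linarith
  nlinarith

/-- The main counting theorem. -/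
theorem main_bound (hL : IsLinearTripleSystem F) (hS : IsWeaklySpreading F) (h2 : 2 ≤ F.card)
    (hn : 6 * 10 ^ 14 ≤ Fintype.card V) :
    (1 + 1 / 100000 : ℝ) * Fintype.card V ≤ F.card := by
  have hn6 : 6 < Fintype.card V := by omega
  by_contra hlt
  push Not at hlt
  set n : ℝ := (Fintype.card V : ℝ) with hn_def
  have hnR : (6 * 10 ^ 14 : ℝ) ≤ n := by
    have h1 : ((6 * 10 ^ 14 : ℕ) : ℝ) ≤ n := Nat.cast_le.2 hn
    norm_num at h1 ⊢
    exact h1
  set N : ℝ := (F.card : ℝ) with hN_def
  -- every vertex has positive degree, so n ≤ 3 N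
  have hsum : ∑ v : V, (star F v).card = 3 * F.card := by
    have := sum_inter F (univ : Finset V)
    simp only [inter_univ] at this
    unfold star
    rw [this, sum_congr rfl (fun e he => hL.triple e he), sum_const, smul_eq_mul, mul_comm]
  have hpos : ∀ v : V, 1 ≤ (star F v).card := fun v => (star_nonempty hL hS h2 v).card_pos
  have hn3 : n ≤ 3 * N := by
    have : Fintype.card V ≤ 3 * F.card := by
      rw [← hsum, ← card_univ, card_eq_sum_ones]
      exact sum_le_sum (fun v _ => hpos v)
    rw [hn_def, hN_def]; exact_mod_cast this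
  set r : ℝ := Real.sqrt N with hr_def
  have hN0 : 0 ≤ N := by positivity
  have hr2 : r ^ 2 = N := Real.sq_sqrt hN0
  have hr : 10 ^ 7 ≤ r := by
    rw [hr_def]; apply Real.le_sqrt_of_sq_le; linarith
  have hr0 : 0 < r := by linarith
  have hdm : ∀ v, dm F v ≤ 5 / 2 * r := by
    intro v
    have h1 := sq_deg_le hL hS h2 hn6 v
    have h1' : (dm F v) ^ 2 ≤ 6 * r ^ 2 := by rw [hr2]; exact h1
    nlinarith [dm_nonneg hL hS h2 v]
  -- heavy vertices
  set H : Finset V := univ.filter (fun v => r / 36 ≤ dm F v) with hH_def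
  have hlight : ∀ v, v ∉ H → dm F v < r / 36 := by
    intro v hv
    by_contra h
    push Not at h
    exact hv (mem_filter.2 ⟨mem_univ _, h⟩)
  have htwo : ∀ e ∈ F, (e ∩ Hᶜ).card ≤ 1 := by
    intro e he
    by_contra hcon
    push Not at hcon
    obtain ⟨x, hx, y, hy, hxy⟩ := one_lt_card.1 hcon
    obtain ⟨hxe, hxH⟩ := mem_inter.1 hx
    obtain ⟨hye, hyH⟩ := mem_inter.1 hy
    rw [mem_compl] at hxH hyH
    have h1 := hlight x hxH
    have h2' := hlight y hyH
    have hcard : ((e.erase x).erase y).card = 1 := by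
      rw [card_erase_of_mem (mem_erase.2 ⟨hxy.symm, hye⟩), card_erase_of_mem hxe, hL.triple e he]
    obtain ⟨z, hz⟩ := card_eq_one.1 hcard
    have hze : z ∈ (e.erase x).erase y := by rw [hz]; simp
    have hzy : z ≠ y := (mem_erase.1 hze).1
    have hzx : z ≠ x := (mem_erase.1 (mem_erase.1 hze).2).1
    have hze' : z ∈ e := (mem_erase.1 (mem_erase.1 hze).2).2
    have heq : e = {x, y, z} := by
      symm
      apply eq_of_subset_of_card_le
      · intro u hu
        simp only [mem_insert, mem_singleton] at hu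
        rcases hu with rfl | rfl | rfl <;> assumption
      · rw [hL.triple e he, card_insert_of_notMem, card_pair hzy.symm]
        simp [hxy, hzx.symm]
    have hsum_e : ∑ u ∈ e, dm F u = dm F x + dm F y + dm F z := by
      rw [heq, sum_insert, sum_pair hzy.symm]
      · ring
      · simp [hxy, hzx.symm]
    have hlz := local_ineq hL hS h2 hn6 he hze'
    have hsz : ∑ u ∈ e.erase z, dm F u = dm F x + dm F y := by
      have := add_sum_erase e (fun u => dm F u) hze'
      linarith
    rw [hsz] at hlz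
    have hg := global_ineq hL hS h2 hn6 he hdm
    rw [hsum_e] at hg
    have hg' : r ^ 2 - 1 ≤ (dm F x + dm F y + dm F z) * (2 * (5 / 2 * r)) := by
      rw [hr2]; exact hg
    nlinarith
  set h : ℝ := (H.card : ℝ) with hh_def
  have hh0 : 0 ≤ h := by positivity
  have hh : h ≤ 108 * r := by
    have h1 : h * (r / 36) ≤ 3 * N := by
      calc h * (r / 36) = ∑ v ∈ H, r / 36 := by rw [sum_const, nsmul_eq_mul]
        _ ≤ ∑ v ∈ H, ((star F v).card : ℝ) := by
            refine sum_le_sum (fun v hv => ?_)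
            have := (mem_filter.1 hv).2
            unfold dm at this
            linarith
        _ ≤ ∑ v : V, ((star F v).card : ℝ) :=
            sum_le_sum_of_subset_of_nonneg (subset_univ _) (fun _ _ _ => by positivity)
        _ = 3 * N := by
            rw [hN_def]; exact_mod_cast hsum
    rw [← hr2] at h1
    have h3 : h * r ≤ (108 * r) * r := by nlinarith
    exact le_of_mul_le_mul_right h3 hr0
  -- light vertices of degree one
  set L1 : Finset V := Hᶜ.filter (fun v => (star F v).card = 1) with hL1_def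
  have hlight_sum : ∑ v ∈ Hᶜ, (star F v).card ≤ F.card := by
    unfold star
    rw [sum_inter F Hᶜ]
    calc ∑ e ∈ F, (e ∩ Hᶜ).card ≤ ∑ _e ∈ F, 1 := sum_le_sum htwo
      _ = F.card := by simp
  have hL1 : 2 * (Fintype.card V : ℝ) - 2 * h - N ≤ (L1.card : ℝ) := by
    have h1 : 2 * Hᶜ.card ≤ L1.card + ∑ v ∈ Hᶜ, (star F v).card := by
      rw [hL1_def, card_filter, ← sum_add_distrib, mul_comm, ← smul_eq_mul, ← sum_const]
      refine sum_le_sum (fun v _ => ?_)
      have := hpos v
      split_ifs with hv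
      · omega
      · omega
    have h3 : 2 * Hᶜ.card ≤ L1.card + F.card := h1.trans (by omega)
    have h4 : (Hᶜ.card : ℝ) = n - h := by
      rw [card_compl, Nat.cast_sub (card_le_univ H)]
    have h5 : (2 * Hᶜ.card : ℝ) ≤ L1.card + F.card := by exact_mod_cast h3
    rw [h4] at h5
    linarith
  -- simple triples
  set S : Finset (Finset V) := F.filter (fun e => ∃ v ∈ e, v ∈ L1) with hS_def
  have hSL : L1.card ≤ S.card := by
    have hch : ∀ v ∈ L1, ∃ e ∈ F, v ∈ e := by
      intro v _
      obtain ⟨e, he⟩ := star_nonempty hL hS h2 v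
      exact ⟨e, (mem_star.1 he).1, (mem_star.1 he).2⟩
    choose! φ hφF hφv using hch
    apply card_le_card_of_injOn φ
    · intro v hv
      exact mem_coe.2 (mem_filter.2 ⟨hφF v hv, v, hφv v hv, hv⟩)
    · intro v hv w hw hvw
      have hv' := mem_coe.1 hv
      have hw' := mem_coe.1 hw
      have h1 := htwo _ (hφF v hv')
      by_contra hne
      have h3 : ({v, w} : Finset V) ⊆ φ v ∩ Hᶜ := by
        intro z hz
        simp only [mem_insert, mem_singleton] at hz
        rcases hz with rfl | rfl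
        · exact mem_inter.2 ⟨hφv _ hv', (mem_filter.1 hv').1⟩
        · exact mem_inter.2 ⟨by rw [hvw]; exact hφv _ hw', (mem_filter.1 hw').1⟩
      have h4 := card_le_card h3
      rw [card_pair hne] at h4
      omega
  have hRcard : ((F \ S).card : ℝ) = N - S.card := by
    rw [card_sdiff_of_subset (filter_subset _ _), Nat.cast_sub (card_le_card (filter_subset _ _))]
  have hSF : (S.card : ℝ) ≤ N := by
    rw [hN_def]; exact_mod_cast card_le_card (filter_subset _ _)
  set R : ℝ := N - S.card with hR_def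
  have hR0 : 0 ≤ R := by linarith
  have hSL' : (L1.card : ℝ) ≤ S.card := by exact_mod_cast hSL
  -- degree bound in the simple graph
  have hs : ∀ x ∈ H, ((S.filter (fun e => x ∈ e)).card : ℝ) ≤ 1 + Real.sqrt (6 * (R + 1)) := by
    intro x hx
    have h1 := pairs_le hL (v := x) (A := S.filter (fun e => x ∈ e)) (G := F \ S) (by
      intro e he
      obtain ⟨he1, he2⟩ := mem_filter.1 he
      exact mem_star.2 ⟨(mem_filter.1 he1).1, he2⟩) (by
      intro e he f hf hne
      obtain ⟨he1, hxe⟩ := mem_filter.1 he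
      obtain ⟨hf1, hxf⟩ := mem_filter.1 hf
      obtain ⟨heF, v, hve, hv⟩ := mem_filter.1 he1
      obtain ⟨hfF, v', hvf, hv'⟩ := mem_filter.1 hf1
      obtain ⟨hvH, hvc⟩ := mem_filter.1 hv
      obtain ⟨hvH', hvc'⟩ := mem_filter.1 hv'
      obtain ⟨g, hg, hgs, a, ha, b, hb, h3⟩ := simple_link hL hS hn6 heF hfF hne hxe hxf hve hvf
        hvc hvc' (by rintro rfl; exact (mem_compl.1 hvH) hx)
        (by rintro rfl; exact (mem_compl.1 hvH') hx)
      refine ⟨g, mem_sdiff.2 ⟨hg, ?_⟩, a, ha, b, hb, h3⟩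
      intro hgS
      obtain ⟨_, w, hwg, hw⟩ := mem_filter.1 hgS
      exact hgs w hwg (mem_filter.1 hw).2)
    have h3 := h1.trans (card_cov_le hL (sdiff_subset))
    have h4 : (((S.filter (fun e => x ∈ e)).card : ℝ) - 1) ^ 2 ≤ 6 * (((F \ S).card + 1 : ℕ) : ℝ) :=
      card_sub_one_sq (G := F) (c := (F \ S).card + 1) (by omega) (by omega)
    push_cast at h4
    rw [hRcard] at h4
    have h5 := Real.le_sqrt_of_sq_le h4
    linarith
  have htot : 2 * (S.card : ℝ) ≤ h * (1 + Real.sqrt (6 * (R + 1))) := by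
    have h1 : 2 * S.card ≤ ∑ x ∈ H, (S.filter (fun e => x ∈ e)).card := by
      rw [sum_inter S H, mul_comm, ← smul_eq_mul, ← sum_const]
      refine sum_le_sum (fun e he => ?_)
      have heF := (mem_filter.1 he).1
      have h3 := htwo e heF
      have h4 : (e ∩ Hᶜ).card + (e ∩ H).card = e.card := by
        rw [← card_union_of_disjoint, ← inter_union_distrib_left, union_comm, union_compl]
        · simp
        · rw [disjoint_left]
          intro z hz hz'
          exact (mem_compl.1 (mem_inter.1 hz).2) (mem_inter.1 hz').2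
      rw [hL.triple e heF] at h4
      omega
    have h3 : 2 * (S.card : ℝ) ≤ ∑ x ∈ H, ((S.filter (fun e => x ∈ e)).card : ℝ) := by
      exact_mod_cast h1
    refine h3.trans ((sum_le_sum hs).trans ?_)
    rw [sum_const, nsmul_eq_mul]
  -- final contradiction
  refine endgame (h := h) (S := (S.card : ℝ)) (R := R) (B := Real.sqrt (6 * (R + 1))) (n := n)
    hr2 hr hh ?_ ?_ hR_def (Real.sqrt_nonneg _) (Real.sq_sqrt (by linarith)) htot
  · linarith
  · linarith

end

/-- The question, affirmatively: there is a constant `C > 1` with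
`liminf xi_wsp(n) / n ≥ C`. -/
theorem result :
    ∃ C : ENNReal, 1 < C ∧
      C ≤ Filter.liminf (fun n : ℕ => ((xiWsp n : ℕ∞) : ENNReal) / (n : ENNReal)) Filter.atTop := by
  refine ⟨ENNReal.ofReal (1 + 1 / 100000), ?_, ?_⟩
  · rw [show (1 : ENNReal) = ENNReal.ofReal 1 by simp]
    rw [ENNReal.ofReal_lt_ofReal_iff (by norm_num)]
    norm_num
  · apply Filter.le_liminf_of_le
    · isBoundedDefault
    · filter_upwards [Filter.eventually_ge_atTop (6 * 10 ^ 14)] with n hn
      have hn0 : (n : ENNReal) ≠ 0 := by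
        have : n ≠ 0 := by omega
        exact_mod_cast this
      rw [ENNReal.le_div_iff_mul_le (Or.inl hn0) (Or.inl (ENNReal.natCast_ne_top n))]
      have key : ∀ F ∈ {F : Finset (Finset (Fin n)) |
          IsLinearTripleSystem F ∧ 2 ≤ F.card ∧ IsWeaklySpreading F},
          ENNReal.ofReal (1 + 1 / 100000) * (n : ENNReal) ≤ ((F.card : ℕ∞) : ENNReal) := by
        rintro F ⟨hL, h2, hS⟩
        have h1 := main_bound hL hS h2 (by rw [Fintype.card_fin]; exact hn)
        rw [Fintype.card_fin] at h1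
        have h3 : (n : ENNReal) = ENNReal.ofReal (n : ℝ) := by simp
        rw [h3, ← ENNReal.ofReal_mul (by norm_num)]
        have h4 : ((F.card : ℕ∞) : ENNReal) = ENNReal.ofReal (F.card : ℝ) := by simp
        rw [h4]
        exact ENNReal.ofReal_le_ofReal h1
      unfold xiWsp
      rw [ENat.toENNReal_iInf]
      refine le_iInf (fun F => ?_)
      rw [ENat.toENNReal_iInf]
      exact le_iInf (fun hF => key F hF)

end Pool.Agent.Results.MP_9978f8_co.Main
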